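import Mathlib

set_option autoImplicit false
open Filter Topology
open scoped ZeroAtInfty ComplexConjugate

namespace Pool.Agent.MP_565a2b_an

noncomputable section

/-- Unit complex numbers; every term of a dense sequence of the circle occurs infinitely often. -/
def th (n : ℕ) : ℂ := ((TopologicalSpace.denseSeq Circle (Nat.unpair n).1 : Circle) : ℂ)

lemma norm_th (n : ℕ) : ‖th n‖ = 1 := by simp [th]

lemma abs_re_mul_conj_le (v w : ℂ) (hw : ‖w‖ = 1) : |(v * conj w).re| ≤ ‖v‖ := by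
  have := Complex.abs_re_le_norm (v * conj w)
  simpa [hw] using this

/-- The underlying vector space: null sequences plus a complex number. -/
def XX : Type := C₀(ℕ, ℝ) × ℂ

instance : AddCommGroup XX := inferInstanceAs (AddCommGroup (C₀(ℕ, ℝ) × ℂ))
instance : Module ℝ XX := inferInstanceAs (Module ℝ (C₀(ℕ, ℝ) × ℂ))

/-- constructor -/
def mkX (y : C₀(ℕ, ℝ)) (v : ℂ) : XX := (y, v)

/-- The coordinate functionals. -/
def cc (n : ℕ) : XX →ₗ[ℝ] ℝ where
  toFun x := x.1 n + (x.2 * conj (th n)).re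
  map_add' x y := by
    show (x.1 + y.1) n + ((x.2 + y.2) * conj (th n)).re
      = x.1 n + (x.2 * conj (th n)).re + (y.1 n + (y.2 * conj (th n)).re)
    rw [ZeroAtInftyContinuousMap.add_apply, add_mul, Complex.add_re]
    ring
  map_smul' t x := by
    show (t • x.1) n + ((t • x.2) * conj (th n)).re
      = t * (x.1 n + (x.2 * conj (th n)).re)
    rw [ZeroAtInftyContinuousMap.smul_apply, smul_mul_assoc, Complex.smul_re]
    simp only [smul_eq_mul]
    ring

lemma cc_apply (n : ℕ) (x : XX) : cc n x = x.1 n + (x.2 * conj (th n)).re := rfl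

lemma cc_mk (n : ℕ) (y : C₀(ℕ, ℝ)) (v : ℂ) : cc n (mkX y v) = y n + (v * conj (th n)).re := rfl

lemma abs_apply_le (y : C₀(ℕ, ℝ)) (n : ℕ) : |y n| ≤ ‖y‖ := by
  have := y.toBCF.norm_coe_le_norm n
  simpa [ZeroAtInftyContinuousMap.norm_toBCF_eq_norm] using this

lemma norm_le_of_abs_le (y : C₀(ℕ, ℝ)) (M : ℝ) (hM : 0 ≤ M) (h : ∀ n, |y n| ≤ M) : ‖y‖ ≤ M := by
  rw [← ZeroAtInftyContinuousMap.norm_toBCF_eq_norm]
  exact (BoundedContinuousFunction.norm_le hM).2 (fun n => by simpa using h n)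

lemma abs_cc_le (n : ℕ) (x : XX) : |cc n x| ≤ ‖x.1‖ + ‖x.2‖ := by
  rw [cc_apply]
  refine (abs_add_le _ _).trans ?_
  exact add_le_add (abs_apply_le _ _) (abs_re_mul_conj_le _ _ (norm_th n))

/-- The supremum norm of the coordinates. -/
def sN (x : XX) : ℝ := ⨆ n, |cc n x|

lemma bdd_cc (x : XX) : BddAbove (Set.range fun n => |cc n x|) := by
  refine ⟨‖x.1‖ + ‖x.2‖, ?_⟩
  rintro _ ⟨n, rfl⟩
  exact abs_cc_le n x

lemma cc_le_sN (n : ℕ) (x : XX) : |cc n x| ≤ sN x := le_ciSup (bdd_cc x) n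

lemma sN_le {x : XX} {M : ℝ} (h : ∀ n, |cc n x| ≤ M) : sN x ≤ M := ciSup_le h

lemma sN_nonneg (x : XX) : 0 ≤ sN x := (abs_nonneg _).trans (cc_le_sN 0 x)

lemma sN_le_sum (x : XX) : sN x ≤ ‖x.1‖ + ‖x.2‖ := sN_le (fun n => abs_cc_le n x)

lemma sN_add (x y : XX) : sN (x + y) ≤ sN x + sN y := by
  refine sN_le (fun n => ?_)
  rw [map_add]
  exact (abs_add_le _ _).trans (add_le_add (cc_le_sN n x) (cc_le_sN n y))

lemma sN_smul (t : ℝ) (x : XX) : sN (t • x) = |t| * sN x := by
  unfold sN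
  rw [Real.mul_iSup_of_nonneg (abs_nonneg t)]
  congr 1
  ext n
  rw [map_smul, smul_eq_mul, abs_mul]

lemma sN_sub (x y : XX) : sN (x - y) ≤ sN x + sN y := by
  have h := sN_add x ((-1 : ℝ) • y)
  rw [sN_smul] at h
  have e : x + (-1 : ℝ) • y = x - y := by
    rw [neg_one_smul, sub_eq_add_neg]
  rw [e] at h
  simpa using h

lemma snd_le_sN (x : XX) : ‖x.2‖ ≤ sN x := by
  set d := TopologicalSpace.denseSeq Circle with hd
  -- every term of the dense sequence
  have h1 : ∀ j : ℕ, (x.2 * conj ((d j : Circle) : ℂ)).re ≤ sN x := by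
    intro j
    have hy : Tendsto (fun n => x.1 n) atTop (𝓝 0) := by
      have := x.1.zero_at_infty'
      rw [cocompact_eq_cofinite, Nat.cofinite_eq_atTop] at this
      exact this
    have hk : Tendsto (fun k => Nat.pair j k) atTop atTop :=
      tendsto_atTop_mono (fun k => Nat.right_le_pair j k) tendsto_id
    have hlim : Tendsto (fun k => cc (Nat.pair j k) x) atTop
        (𝓝 (0 + (x.2 * conj ((d j : Circle) : ℂ)).re)) := by
      have h2 := (hy.comp hk).add_const ((x.2 * conj ((d j : Circle) : ℂ)).re)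
      refine h2.congr (fun k => ?_)
      rw [cc_apply]
      simp [th, hd]
    rw [zero_add] at hlim
    exact le_of_tendsto hlim (Eventually.of_forall
      (fun k => (le_abs_self _).trans (cc_le_sN _ x)))
  have h2 : ∀ w : Circle, (x.2 * conj (w : ℂ)).re ≤ sN x := by
    intro w
    have hcl : IsClosed {w : Circle | (x.2 * conj (w : ℂ)).re ≤ sN x} := by
      apply isClosed_le
      · fun_prop
      · exact continuous_const
    exact (TopologicalSpace.denseRange_denseSeq Circle).induction_on w hcl (fun j => h1 j)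
  have h3 := h2 (Circle.exp (Complex.arg x.2))
  have h4 : (x.2 * conj ((Circle.exp (Complex.arg x.2) : Circle) : ℂ)) = (‖x.2‖ : ℂ) := by
    conv_lhs => rw [← Complex.norm_mul_exp_arg_mul_I x.2]
    rw [Circle.coe_exp, ← Complex.exp_conj]
    rw [mul_assoc, ← Complex.exp_add]
    simp
  rw [h4, Complex.ofReal_re] at h3
  exact h3

lemma fst_le_sN (x : XX) : ‖x.1‖ ≤ 2 * sN x := by
  have hs := sN_nonneg x
  refine norm_le_of_abs_le _ _ (by linarith) (fun n => ?_)
  have h1 := cc_le_sN n x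
  have h2 := snd_le_sN x
  have h3 := abs_re_mul_conj_le x.2 (th n) (norm_th n)
  have h4 : x.1 n = cc n x - (x.2 * conj (th n)).re := by rw [cc_apply]; ring
  rw [h4]
  have := abs_sub (cc n x) ((x.2 * conj (th n)).re)
  linarith

lemma eq_zero_of_sN (x : XX) (h : sN x = 0) : x = 0 := by
  have h1 : ‖x.1‖ ≤ 0 := by have := fst_le_sN x; rw [h] at this; simpa using this
  have h2 : ‖x.2‖ ≤ 0 := by have := snd_le_sN x; rwa [h] at this
  exact Prod.ext (norm_le_zero_iff.mp h1) (norm_le_zero_iff.mp h2)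

/-- unit vectors -/
def ee0 (n : ℕ) : C₀(ℕ, ℝ) where
  toFun := fun m => if m = n then 1 else 0
  continuous_toFun := continuous_of_discreteTopology
  zero_at_infty' := by
    rw [cocompact_eq_cofinite, Nat.cofinite_eq_atTop]
    refine tendsto_const_nhds.congr' ?_
    filter_upwards [eventually_gt_atTop n] with m hm
    simp [hm.ne']

lemma ee0_apply (n m : ℕ) : ee0 n m = if m = n then 1 else 0 := rfl

/-- unit vectors in `XX` -/
def ee (n : ℕ) : XX := mkX (ee0 n) 0

lemma cc_ee (m n : ℕ) : cc m (ee n) = if m = n then 1 else 0 := by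
  rw [ee, cc_mk, ee0_apply]
  simp

/-- the vectors with zero null-sequence part -/
def em : ℂ →ₗ[ℝ] XX where
  toFun v := mkX 0 v
  map_add' v w := by
    show ((0 : C₀(ℕ, ℝ)), v + w) = ((0 : C₀(ℕ, ℝ)) + 0, v + w)
    rw [add_zero]
  map_smul' t v := by
    show ((0 : C₀(ℕ, ℝ)), t • v) = (t • (0 : C₀(ℕ, ℝ)), t • v)
    rw [smul_zero]

lemma cc_em (m : ℕ) (v : ℂ) : cc m (em v) = (v * conj (th m)).re := by
  show (0 : C₀(ℕ, ℝ)) m + (v * conj (th m)).re = _
  simp

/-- the `ℂ`-part of the exposed points -/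
def vv (n : ℕ) : ℂ := if Even n then 1 / 2 else Complex.I / 2

lemma norm_vv (n : ℕ) : ‖vv n‖ = 1 / 2 := by
  unfold vv
  split_ifs <;> simp

/-- the coordinate of `vv n` at `n` -/
def uu (n : ℕ) : ℝ := (vv n * conj (th n)).re

lemma abs_uu (n : ℕ) : |uu n| ≤ 1 / 2 := by
  rw [← norm_vv n]
  exact abs_re_mul_conj_le _ _ (norm_th n)

/-- the exposed points -/
def xs (n : ℕ) : XX := (1 - uu n) • ee n + em (vv n)

lemma cc_xs_self (n : ℕ) : cc n (xs n) = 1 := by
  rw [xs, map_add, map_smul, cc_ee, cc_em]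
  simp [uu]

lemma abs_cc_xs (m n : ℕ) (h : m ≠ n) : |cc m (xs n)| ≤ 1 / 2 := by
  rw [xs, map_add, map_smul, cc_ee, cc_em]
  simp only [h, if_false, smul_eq_mul, mul_zero, zero_add]
  rw [← norm_vv n]
  exact abs_re_mul_conj_le _ _ (norm_th m)

lemma sN_xs (n : ℕ) : sN (xs n) ≤ 1 := by
  refine sN_le (fun m => ?_)
  by_cases h : m = n
  · subst h
    rw [cc_xs_self]
    simp
  · exact (abs_cc_xs m n h).trans (by norm_num)

/-- the pieces of the new norm -/
def pN (n : ℕ) (x : XX) : ℝ := |cc n x| + (1 / 100) * sN (x - cc n x • xs n)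

lemma pN_nonneg (n : ℕ) (x : XX) : 0 ≤ pN n x := by
  have := sN_nonneg (x - cc n x • xs n)
  have := abs_nonneg (cc n x)
  unfold pN
  linarith

lemma sN_sub_smul_xs (n : ℕ) (x : XX) : sN (x - cc n x • xs n) ≤ sN x + |cc n x| := by
  refine (sN_sub _ _).trans ?_
  rw [sN_smul]
  have := sN_xs n
  have := abs_nonneg (cc n x)
  nlinarith

lemma pN_le (n : ℕ) (x : XX) : pN n x ≤ (102 / 100) * sN x := by
  have h1 := sN_sub_smul_xs n x
  have h2 := cc_le_sN n x
  unfold pN
  linarith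

lemma pN_add (n : ℕ) (x y : XX) : pN n (x + y) ≤ pN n x + pN n y := by
  unfold pN
  have h1 : x + y - cc n (x + y) • xs n = (x - cc n x • xs n) + (y - cc n y • xs n) := by
    rw [map_add, add_smul]
    abel
  rw [h1]
  have h2 := sN_add (x - cc n x • xs n) (y - cc n y • xs n)
  have h3 : |cc n (x + y)| ≤ |cc n x| + |cc n y| := by
    rw [map_add]; exact abs_add_le _ _
  linarith

lemma pN_smul (n : ℕ) (t : ℝ) (x : XX) : pN n (t • x) = |t| * pN n x := by
  unfold pN
  have h1 : t • x - cc n (t • x) • xs n = t • (x - cc n x • xs n) := by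
    rw [map_smul, smul_sub, smul_eq_mul, mul_smul]
  rw [h1, sN_smul, map_smul, smul_eq_mul, abs_mul]
  ring

instance : Norm XX := ⟨fun x => ⨆ n, pN n x⟩

lemma norm_def (x : XX) : ‖x‖ = ⨆ n, pN n x := rfl

lemma bdd_pN (x : XX) : BddAbove (Set.range fun n => pN n x) := by
  refine ⟨(102 / 100) * sN x, ?_⟩
  rintro _ ⟨n, rfl⟩
  exact pN_le n x

lemma pN_le_norm (n : ℕ) (x : XX) : pN n x ≤ ‖x‖ := le_ciSup (bdd_pN x) n

lemma norm_le' {x : XX} {M : ℝ} (h : ∀ n, pN n x ≤ M) : ‖x‖ ≤ M := ciSup_le h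

lemma norm_le_sN (x : XX) : ‖x‖ ≤ (102 / 100) * sN x := norm_le' (fun n => pN_le n x)

lemma sN_le_norm (x : XX) : sN x ≤ ‖x‖ := by
  refine sN_le (fun n => ?_)
  refine le_trans ?_ (pN_le_norm n x)
  have := sN_nonneg (x - cc n x • xs n)
  unfold pN
  linarith

lemma core : NormedSpace.Core ℝ XX where
  norm_nonneg x := (pN_nonneg 0 x).trans (pN_le_norm 0 x)
  norm_smul t x := by
    rw [norm_def, norm_def, Real.norm_eq_abs, Real.mul_iSup_of_nonneg (abs_nonneg t)]
    congr 1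
    ext n
    rw [pN_smul]
  norm_triangle x y := by
    refine norm_le' (fun n => ?_)
    exact (pN_add n x y).trans (add_le_add (pN_le_norm n x) (pN_le_norm n y))
  norm_eq_zero_iff x := by
    constructor
    · intro h
      apply eq_zero_of_sN
      have h1 := sN_le_norm x
      have h2 := sN_nonneg x
      linarith
    · rintro rfl
      have h1 : sN (0 : XX) = 0 := by
        have := sN_smul 0 (0 : XX)
        simpa using this
      have h2 := norm_le_sN (0 : XX)
      have h3 := sN_le_norm (0 : XX)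
      rw [h1] at h2 h3
      linarith

instance : NormedAddCommGroup XX := NormedAddCommGroup.ofCore core
instance : NormedSpace ℝ XX := NormedSpace.ofCore core

instance : CompleteSpace XX := by
  let e : (C₀(ℕ, ℝ) × ℂ) ≃ₗ[ℝ] XX := LinearEquiv.refl ℝ (C₀(ℕ, ℝ) × ℂ)
  have h1 : ∀ x : C₀(ℕ, ℝ) × ℂ, ‖e x‖ ≤ 3 * ‖x‖ := by
    intro x
    have a1 := norm_le_sN (e x)
    have a2 := sN_le_sum (e x)
    have a3 : ‖(e x).1‖ ≤ ‖x‖ := norm_fst_le x
    have a4 : ‖(e x).2‖ ≤ ‖x‖ := norm_snd_le x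
    have := norm_nonneg x
    linarith
  have h2 : ∀ x : XX, ‖e.symm x‖ ≤ 2 * ‖x‖ := by
    intro x
    have a1 := sN_le_norm x
    have a2 := fst_le_sN x
    have a3 := snd_le_sN x
    have a4 := sN_nonneg x
    have : ‖e.symm x‖ = max ‖x.1‖ ‖x.2‖ := Prod.norm_def _
    rw [this]
    exact max_le (by linarith) (by linarith)
  let E := e.toContinuousLinearEquivOfBounds 3 2 h1 h2
  exact (completeSpace_congr (e := E.toLinearEquiv.toEquiv) E.isUniformEmbedding).mp inferInstance

end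

end Pool.Agent.MP_565a2b_an
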