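import Mathlib
import Pool.Agent.Lib.MP_565a2b_an.Space

set_option autoImplicit false
open Filter Topology
open scoped ZeroAtInfty ComplexConjugate

namespace Pool.Agent.MP_565a2b_an

noncomputable section

/-- A functional dominated by `pN n` and norming a given vector for `pN n`. -/
lemma exists_functional (n : ℕ) (y : XX) (hy : 0 < pN n y) :
    ∃ f : XX →ₗ[ℝ] ℝ, (∀ x, |f x| ≤ pN n x) ∧ f y = pN n y := by
  have hy0 : y ≠ 0 := by
    rintro rfl
    have : pN n (0 : XX) = 0 := by
      have := pN_smul n 0 (0 : XX)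
      simpa using this
    rw [this] at hy
    exact lt_irrefl _ hy
  obtain ⟨f, hf1, hf2⟩ := exists_extension_of_le_sublinear
    (LinearPMap.mkSpanSingleton (K := ℝ) y (pN n y) hy0) (pN n)
    (fun c hc x => by rw [pN_smul, abs_of_pos hc]) (pN_add n) (by
      rintro ⟨x, hx⟩
      obtain ⟨t, rfl⟩ := Submodule.mem_span_singleton.mp hx
      rw [LinearPMap.mkSpanSingleton'_apply]
      simp only [RingHom.id_apply, smul_eq_mul]
      show t * pN n y ≤ pN n (t • y)
      rw [pN_smul]
      exact mul_le_mul_of_nonneg_right (le_abs_self t) hy.le)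
  refine ⟨f, fun x => ?_, ?_⟩
  · rw [abs_le]
    constructor
    · have h1 := hf2 (-x)
      have h2 : pN n (-x) = pN n x := by
        have := pN_smul n (-1) x
        simpa using this
      rw [map_neg, h2] at h1
      linarith
    · exact hf2 x
  · have hmem : y ∈ Submodule.span ℝ {y} := Submodule.mem_span_singleton_self y
    exact (hf1 ⟨y, hmem⟩).trans (LinearPMap.mkSpanSingleton'_apply_self _ _ _ _)

lemma sN_ee (n : ℕ) : sN (ee n) ≤ 1 := by
  refine sN_le (fun m => ?_)
  rw [cc_ee]
  split_ifs <;> simp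

theorem lower (T : XX →L[ℝ] XX) (hT : ‖T‖ = 1) :
    ∃ (x : XX) (f : XX →L[ℝ] ℝ), ‖x‖ = 1 ∧ ‖f‖ = 1 ∧ f x = 1 ∧ 9 / 10 ≤ ‖f (T x)‖ := by
  -- a vector almost norming T
  obtain ⟨x0, hx0, hTx0⟩ := ContinuousLinearMap.exists_lt_apply_of_lt_opNorm T
    (r := 99 / 100) (by rw [hT]; norm_num)
  have h1 : 97 / 100 < sN (T x0) := by
    have := norm_le_sN (T x0)
    by_contra h
    push Not at h
    linarith
  have h2 : ∃ n, 97 / 100 < |cc n (T x0)| := by
    by_contra h
    push Not at h
    exact absurd (sN_le h) (not_le.mpr h1)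
  obtain ⟨n, hn⟩ := h2
  have hs0 : sN x0 ≤ 1 := (sN_le_norm x0).trans hx0.le
  have hc0 : ∀ m, |cc m x0| ≤ 1 := fun m => (cc_le_sN m x0).trans hs0
  -- modified vector
  have hy : ∃ y : XX, |cc n y| = 103 / 100 ∧ (∀ m, m ≠ n → |cc m y| ≤ 1) ∧
      97 / 100 < |cc n (T y)| := by
    set c := cc n x0 with hc
    have hcabs := abs_le.mp (hc0 n)
    set yp := x0 + (103 / 100 - c) • ee n with hyp
    set ym := x0 + (-(103 / 100) - c) • ee n with hym
    have key : (103 / 100 + c) * cc n (T yp) + (103 / 100 - c) * cc n (T ym)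
        = 2 * (103 / 100) * cc n (T x0) := by
      simp only [hyp, hym, map_add, map_smul, smul_eq_mul]
      ring
    have hyp1 : ∀ m, m ≠ n → cc m yp = cc m x0 := by
      intro m hm
      rw [hyp, map_add, map_smul, cc_ee]
      simp [hm]
    have hym1 : ∀ m, m ≠ n → cc m ym = cc m x0 := by
      intro m hm
      rw [hym, map_add, map_smul, cc_ee]
      simp [hm]
    have hyp2 : cc n yp = 103 / 100 := by
      rw [hyp, map_add, map_smul, cc_ee]
      simp [← hc]
    have hym2 : cc n ym = -(103 / 100) := by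
      rw [hym, map_add, map_smul, cc_ee]
      simp [← hc]
    by_cases h : 97 / 100 < |cc n (T yp)|
    · refine ⟨yp, ?_, ?_, h⟩
      · rw [hyp2, abs_of_pos (by norm_num)]
      · intro m hm
        rw [hyp1 m hm]
        exact hc0 m
    · refine ⟨ym, ?_, ?_, ?_⟩
      · rw [hym2, abs_neg, abs_of_pos (by norm_num)]
      · intro m hm
        rw [hym1 m hm]
        exact hc0 m
      · by_contra h'
        push Not at h h'
        have a1 : |2 * (103 / 100) * cc n (T x0)| ≤ 2 * (103 / 100) * (97 / 100) := by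
          rw [← key]
          refine (abs_add_le _ _).trans ?_
          rw [abs_mul, abs_mul]
          have b1 : |103 / 100 + c| = 103 / 100 + c := abs_of_nonneg (by linarith)
          have b2 : |103 / 100 - c| = 103 / 100 - c := abs_of_nonneg (by linarith)
          rw [b1, b2]
          nlinarith
        rw [abs_mul, abs_of_pos (by norm_num : (0 : ℝ) < 2 * (103 / 100))] at a1
        linarith
  obtain ⟨y, hy1, hy2, hy3⟩ := hy
  have hsy : sN y ≤ 103 / 100 := by
    refine sN_le (fun m => ?_)
    by_cases h : m = n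
    · rw [h, hy1]
    · exact (hy2 m h).trans (by norm_num)
  have hpn1 : 103 / 100 ≤ pN n y := by
    have := sN_nonneg (y - cc n y • xs n)
    unfold pN
    rw [hy1]
    linarith
  have hpn2 : pN n y ≤ 1051 / 1000 := by
    have := sN_sub_smul_xs n y
    unfold pN
    rw [hy1] at *
    linarith
  have hnorm : ‖y‖ = pN n y := by
    apply le_antisymm _ (pN_le_norm n y)
    refine norm_le' (fun m => ?_)
    by_cases h : m = n
    · rw [h]
    · refine le_trans ?_ hpn1
      have a1 := sN_sub_smul_xs m y
      have a2 := hy2 m h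
      unfold pN
      linarith
  obtain ⟨g, hg1, hg2⟩ := exists_functional n y (by linarith)
  let f : XX →L[ℝ] ℝ := g.mkContinuous 1 (fun x => by
    rw [one_mul, Real.norm_eq_abs]
    exact (hg1 x).trans (pN_le_norm n x))
  have hfg : ∀ x, f x = g x := fun x => rfl
  have hfn : ‖f‖ ≤ 1 := LinearMap.mkContinuous_norm_le _ zero_le_one _
  have hypos : 0 < ‖y‖ := by rw [hnorm]; linarith
  -- closeness of g to the coordinate functional
  have hclose : ∀ z, |g z - cc n z * g (xs n)| ≤ (2 / 100) * sN z := by
    intro z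
    have e1 : g z - cc n z * g (xs n) = g (z - cc n z • xs n) := by
      rw [map_sub, map_smul, smul_eq_mul]
    rw [e1]
    refine (hg1 _).trans ?_
    have e2 : cc n (z - cc n z • xs n) = 0 := by
      rw [map_sub, map_smul, cc_xs_self]
      simp
    have a1 := sN_sub_smul_xs n z
    have a2 := cc_le_sN n z
    unfold pN
    rw [e2]
    simp only [abs_zero, zero_smul, sub_zero, zero_add]
    linarith
  have hgx : 1 ≤ |g (xs n)| := by
    have e1 : g y = cc n y * g (xs n) + g (y - cc n y • xs n) := by
      rw [map_sub, map_smul, smul_eq_mul]; ring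
    have e2 : cc n (y - cc n y • xs n) = 0 := by
      rw [map_sub, map_smul, cc_xs_self]
      simp
    have e3 : g (y - cc n y • xs n) ≤ (1 / 100) * sN (y - cc n y • xs n) := by
      refine (le_abs_self _).trans ((hg1 _).trans ?_)
      conv_lhs => unfold pN
      rw [e2]
      simp
    have e4 : pN n y = 103 / 100 + (1 / 100) * sN (y - cc n y • xs n) := by
      conv_lhs => unfold pN
      rw [hy1]
    have e5 : 103 / 100 ≤ cc n y * g (xs n) := by linarith
    have e6 : cc n y * g (xs n) ≤ (103 / 100) * |g (xs n)| := by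
      rw [← hy1, ← abs_mul]
      exact le_abs_self _
    linarith
  have hTy : sN (T y) ≤ 1051 / 1000 := by
    refine (sN_le_norm _).trans ?_
    have := T.le_opNorm y
    rw [hT, one_mul, hnorm] at this
    linarith
  have hval : 948 / 1000 ≤ |g (T y)| := by
    have a1 := hclose (T y)
    have a2 : |cc n (T y) * g (xs n)| ≤ |g (T y)| + |g (T y) - cc n (T y) * g (xs n)| := by
      have := abs_sub (g (T y)) (g (T y) - cc n (T y) * g (xs n))
      simpa using this
    rw [abs_mul] at a2
    have a3 : 97 / 100 ≤ |cc n (T y)| * |g (xs n)| := by nlinarith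
    linarith
  refine ⟨(‖y‖)⁻¹ • y, f, ?_, ?_, ?_, ?_⟩
  · rw [norm_smul, norm_inv, norm_norm, inv_mul_cancel₀ hypos.ne']
  · apply le_antisymm hfn
    have h3 := f.le_opNorm y
    rw [hfg, hg2, ← hnorm, norm_norm] at h3
    by_contra h
    push Not at h
    nlinarith
  · rw [map_smul, hfg, hg2, ← hnorm, smul_eq_mul, inv_mul_cancel₀ hypos.ne']
  · rw [map_smul, map_smul, norm_smul, norm_inv, norm_norm, hfg, Real.norm_eq_abs]
    rw [inv_mul_eq_div, le_div_iff₀ hypos, hnorm]
    linarith

end

end Pool.Agent.MP_565a2b_an
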