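import Mathlib

set_option autoImplicit false
open Filter Topology

namespace Pool.Agent.MP_565a2b_an

/-- Hahn-Banach for closed subspaces. -/
lemma exists_annihilator {E : Type} [NormedAddCommGroup E] [NormedSpace ℝ E]
    (S : Submodule ℝ E) (hS : IsClosed (S : Set E)) (x : E) (hx : x ∉ S) :
    ∃ f : E →L[ℝ] ℝ, (∀ y ∈ S, f y = 0) ∧ f x ≠ 0 := by
  obtain ⟨f, u, h1, h2⟩ := geometric_hahn_banach_closed_point (S.convex) hS hx
  have h0 : 0 < u := by simpa using h1 0 S.zero_mem
  refine ⟨f, fun y hy => ?_, ?_⟩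
  · by_contra hne
    have := h1 ((u / f y) • y) (S.smul_mem _ hy)
    rw [map_smul, smul_eq_mul, div_mul_cancel₀ _ hne] at this
    exact lt_irrefl _ this
  · intro h
    rw [h] at h2
    linarith

/-- A Banach space whose unit ball has enough (linearly) strongly exposed points to separate the
points of the dual is the unique isometric predual of its dual. -/
theorem unique_predual {X : Type} [NormedAddCommGroup X] [NormedSpace ℝ X] [CompleteSpace X]
    {ι : Type} (xs : ι → X) (c : ι → X →L[ℝ] ℝ) (κ : ℝ) (hκ : 0 < κ)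
    (hc : ∀ i, c i (xs i) = 1) (hx : ∀ i, ‖xs i‖ ≤ 1)
    (hexp : ∀ i z, |c i z| + κ * ‖z - c i z • xs i‖ ≤ ‖z‖)
    (hdense : ∀ f : X →L[ℝ] ℝ, (∀ i, f (xs i) = 0) → f = 0)
    (Z : Type) [NormedAddCommGroup Z] [NormedSpace ℝ Z] [CompleteSpace Z]
    (U : (Z →L[ℝ] ℝ) ≃ₗᵢ[ℝ] (X →L[ℝ] ℝ)) : Nonempty (Z ≃ₗᵢ[ℝ] X) := by
  classical
  -- norms of the functionals
  have hcn : ∀ i, ‖c i‖ = 1 := by
    intro i
    apply le_antisymm
    · refine ContinuousLinearMap.opNorm_le_bound _ zero_le_one (fun z => ?_)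
      rw [one_mul, Real.norm_eq_abs]
      have := hexp i z
      have h2 : 0 ≤ κ * ‖z - c i z • xs i‖ := by positivity
      linarith
    · have h1 := (c i).le_opNorm (xs i)
      rw [hc i, norm_one] at h1
      have := hx i
      have h0 := norm_nonneg (c i)
      nlinarith
  let JX := NormedSpace.inclusionInDoubleDualLi (E := X) ℝ
  let JZ := NormedSpace.inclusionInDoubleDualLi (E := Z) ℝ
  let Uc : (Z →L[ℝ] ℝ) →L[ℝ] (X →L[ℝ] ℝ) := U.toContinuousLinearEquiv.toContinuousLinearMap
  let Ψ : X →L[ℝ] ((Z →L[ℝ] ℝ) →L[ℝ] ℝ) :=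
    ((ContinuousLinearMap.compL ℝ (Z →L[ℝ] ℝ) (X →L[ℝ] ℝ) ℝ).flip Uc).comp
      (NormedSpace.inclusionInDoubleDual ℝ X)
  have hΨ : ∀ x g, Ψ x g = U g x := fun x g => rfl
  have hJZ : ∀ z g, JZ z g = g z := fun z g => rfl
  have hΨn : ∀ x, ‖Ψ x‖ = ‖x‖ := by
    intro x
    apply le_antisymm
    · refine ContinuousLinearMap.opNorm_le_bound _ (norm_nonneg _) (fun g => ?_)
      rw [hΨ]
      calc ‖U g x‖ ≤ ‖U g‖ * ‖x‖ := (U g).le_opNorm x
        _ = ‖x‖ * ‖g‖ := by rw [U.norm_map, mul_comm]
    · obtain ⟨g, hg1, hg2⟩ := exists_dual_vector'' ℝ x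
      have h := (Ψ x).le_opNorm (U.symm g)
      rw [hΨ, U.apply_symm_apply, U.symm.norm_map, hg2] at h
      simp only [RCLike.ofReal_real_eq_id, id_eq, norm_norm] at h
      have := norm_nonneg (Ψ x)
      nlinarith
  have hJZclosed : IsClosed (LinearMap.range JZ.toLinearMap : Set ((Z →L[ℝ] ℝ) →L[ℝ] ℝ)) := by
    have := JZ.isometry.isUniformInducing.isComplete_range.isClosed
    simpa [LinearMap.coe_range] using this
  let S : Submodule ℝ X := (LinearMap.range JZ.toLinearMap).comap Ψ.toLinearMap
  have hSclosed : IsClosed (S : Set X) := by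
    have := hJZclosed.preimage Ψ.continuous
    simpa [S, Submodule.comap_coe] using this
  -- key estimate
  have key : ∀ i (z : Z), ‖z‖ ≤ 1 → ∀ g : Z →L[ℝ] ℝ,
      |g z - U g (xs i)| ≤ (1 - (U.symm (c i)) z) * (1 / κ + 1) * ‖g‖ := by
    intro i z hz g
    have main : ∀ F : X →L[ℝ] ℝ, U.symm F z - F (xs i) ≤
        (1 - (U.symm (c i)) z) * (1 / κ + 1) * ‖F‖ := by
      intro F
      by_cases hF : ‖F‖ = 0
      · have : F = 0 := norm_eq_zero.mp hF
        subst this
        simp
      have hFpos : 0 < ‖F‖ := lt_of_le_of_ne (norm_nonneg _) (Ne.symm hF)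
      let k' : ℝ := κ / ‖F‖
      have hk' : 0 < k' := by positivity
      let h : X →L[ℝ] ℝ := c i + k' • (F - F (xs i) • c i)
      have hh : ‖h‖ ≤ 1 := by
        refine ContinuousLinearMap.opNorm_le_bound _ zero_le_one (fun w => ?_)
        rw [one_mul]
        have e1 : h w = c i w + k' * F (w - c i w • xs i) := by
          simp only [h, add_apply, smul_apply,
            sub_apply, smul_eq_mul, map_sub, map_smul]
          ring
        rw [e1, Real.norm_eq_abs]
        calc |c i w + k' * F (w - c i w • xs i)|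
            ≤ |c i w| + |k' * F (w - c i w • xs i)| := abs_add_le _ _
          _ = |c i w| + k' * ‖F (w - c i w • xs i)‖ := by
              rw [abs_mul, abs_of_pos hk', Real.norm_eq_abs]
          _ ≤ |c i w| + k' * (‖F‖ * ‖w - c i w • xs i‖) := by
              gcongr
              exact F.le_opNorm _
          _ = |c i w| + κ * ‖w - c i w • xs i‖ := by
              simp only [k']
              field_simp
          _ ≤ ‖w‖ := hexp i w
      have h1 : U.symm h z ≤ 1 := by
        have := (U.symm h).le_opNorm z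
        rw [U.symm.norm_map, Real.norm_eq_abs] at this
        have h2 := le_abs_self (U.symm h z)
        have := norm_nonneg h
        have := norm_nonneg z
        nlinarith
      have e2 : U.symm h z = U.symm (c i) z + k' * (U.symm F z - F (xs i) * U.symm (c i) z) := by
        simp [h]
      have hFx : |F (xs i)| ≤ ‖F‖ := by
        have := F.le_opNorm (xs i)
        rw [Real.norm_eq_abs] at this
        have := hx i
        nlinarith
      have hcz : U.symm (c i) z ≤ 1 := by
        have := (U.symm (c i)).le_opNorm z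
        rw [U.symm.norm_map, Real.norm_eq_abs, hcn i] at this
        have h2 := le_abs_self (U.symm (c i) z)
        linarith
      rw [e2] at h1
      have h3 : U.symm F z - F (xs i) * U.symm (c i) z ≤ (1 - U.symm (c i) z) * (‖F‖ / κ) := by
        have : k' * (U.symm F z - F (xs i) * U.symm (c i) z) ≤ 1 - U.symm (c i) z := by linarith
        have h4 : (U.symm F z - F (xs i) * U.symm (c i) z)
            = (k' * (U.symm F z - F (xs i) * U.symm (c i) z)) * (‖F‖ / κ) := by
          simp only [k']
          field_simp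
        rw [h4]
        exact mul_le_mul_of_nonneg_right this (by positivity)
      have h5 : F (xs i) * (U.symm (c i) z - 1) ≤ ‖F‖ * (1 - U.symm (c i) z) := by
        have := abs_le.mp hFx
        nlinarith
      calc U.symm F z - F (xs i)
          = (U.symm F z - F (xs i) * U.symm (c i) z) + F (xs i) * (U.symm (c i) z - 1) := by ring
        _ ≤ (1 - U.symm (c i) z) * (‖F‖ / κ) + ‖F‖ * (1 - U.symm (c i) z) := add_le_add h3 h5
        _ = (1 - (U.symm (c i)) z) * (1 / κ + 1) * ‖F‖ := by ring
    rw [abs_le]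
    constructor
    · have := main (-(U g))
      simp only [map_neg, neg_apply, LinearIsometryEquiv.symm_apply_apply,
        norm_neg, U.norm_map] at this
      linarith
    · have := main (U g)
      simp only [LinearIsometryEquiv.symm_apply_apply, U.norm_map] at this
      linarith
  have hmem : ∀ i, xs i ∈ S := by
    intro i
    show Ψ (xs i) ∈ LinearMap.range JZ.toLinearMap
    -- approximating sequence
    have hex : ∀ k : ℕ, ∃ z : Z, ‖z‖ ≤ 1 ∧ 1 - 1 / ((k : ℝ) + 1) ≤ U.symm (c i) z := by
      intro k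
      have hk : (0 : ℝ) < 1 / ((k : ℝ) + 1) := by positivity
      have hn : ‖U.symm (c i)‖ = 1 := by rw [U.symm.norm_map, hcn i]
      obtain ⟨z, hz1, hz2⟩ := ContinuousLinearMap.exists_lt_apply_of_lt_opNorm (U.symm (c i))
        (r := 1 - 1 / ((k : ℝ) + 1)) (by rw [hn]; linarith)
      rw [Real.norm_eq_abs] at hz2
      rcases le_total 0 (U.symm (c i) z) with h | h
      · rw [abs_of_nonneg h] at hz2
        exact ⟨z, hz1.le, hz2.le⟩
      · rw [abs_of_nonpos h] at hz2
        exact ⟨-z, by rw [norm_neg]; exact hz1.le, by rw [map_neg]; exact hz2.le⟩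
    choose z hz1 hz2 using hex
    have hlim : Tendsto (fun k => JZ (z k)) atTop (𝓝 (Ψ (xs i))) := by
      have hiff := tendsto_iff_norm_sub_tendsto_zero (E := (Z →L[ℝ] ℝ) →L[ℝ] ℝ)
        (f := fun k => JZ (z k)) (a := atTop) (b := Ψ (xs i))
      refine hiff.2 ?_
      have hb : ∀ k, ‖JZ (z k) - Ψ (xs i)‖ ≤ (1 / ((k : ℝ) + 1)) * (1 / κ + 1) := by
        intro k
        refine ContinuousLinearMap.opNorm_le_bound _ (by positivity) (fun g => ?_)
        rw [sub_apply, hJZ, hΨ, Real.norm_eq_abs]
        refine (key i (z k) (hz1 k) g).trans ?_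
        gcongr
        linarith [hz2 k]
      refine squeeze_zero (fun k => norm_nonneg (E := (Z →L[ℝ] ℝ) →L[ℝ] ℝ) (JZ (z k) - Ψ (xs i))) hb ?_
      have := (tendsto_one_div_add_atTop_nhds_zero_nat (𝕜 := ℝ)).mul_const (1 / κ + 1)
      simpa using this
    have := hJZclosed.mem_of_tendsto hlim (Eventually.of_forall (fun k => ⟨z k, rfl⟩))
    exact this
  have hStop : S = ⊤ := by
    rw [Submodule.eq_top_iff']
    intro x
    by_contra hx
    obtain ⟨f, hf1, hf2⟩ := exists_annihilator S hSclosed x hx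
    exact hf2 (by rw [hdense f (fun i => hf1 _ (hmem i))]; rfl)
  -- construct the isometry
  have hall : ∀ x, ∃ z : Z, JZ z = Ψ x := by
    intro x
    have : x ∈ S := by rw [hStop]; trivial
    exact this
  choose φ hφ using hall
  have hφ_add : ∀ x y, φ (x + y) = φ x + φ y := by
    intro x y
    apply JZ.injective
    rw [map_add, hφ, hφ, hφ, map_add]
  have hφ_smul : ∀ (t : ℝ) x, φ (t • x) = t • φ x := by
    intro t x
    apply JZ.injective
    rw [map_smul, hφ, hφ, map_smul]
  have hφ_norm : ∀ x, ‖φ x‖ = ‖x‖ := by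
    intro x
    rw [← JZ.norm_map, hφ, hΨn]
  let Φ : X →ₗᵢ[ℝ] Z :=
    { toFun := φ, map_add' := hφ_add, map_smul' := hφ_smul, norm_map' := hφ_norm }
  have hΦ : ∀ x (g : Z →L[ℝ] ℝ), g (Φ x) = U g x := by
    intro x g
    show g (φ x) = U g x
    rw [← hJZ, hφ, hΨ]
  have hsurj : Function.Surjective Φ := by
    intro z
    by_contra hz
    have hcl : IsClosed (LinearMap.range Φ.toLinearMap : Set Z) := by
      have := Φ.isometry.isUniformInducing.isComplete_range.isClosed
      simpa [LinearMap.coe_range] using this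
    have hz' : z ∉ LinearMap.range Φ.toLinearMap := by
      rintro ⟨x, hx⟩
      exact hz ⟨x, hx⟩
    obtain ⟨g, hg1, hg2⟩ := exists_annihilator _ hcl z hz'
    have : U g = 0 := by
      ext x
      rw [← hΦ x g]
      exact hg1 _ ⟨x, rfl⟩
    have hg0 : g = 0 := by
      have := congrArg U.symm this
      simpa using this
    exact hg2 (by rw [hg0]; rfl)
  exact ⟨(LinearIsometryEquiv.ofSurjective Φ hsurj).symm⟩

end Pool.Agent.MP_565a2b_an
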