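import Mathlib
import Pool.Agent.Lib.MP_565a2b_an.Space

set_option autoImplicit false
open Filter Topology
open scoped ZeroAtInfty ComplexConjugate

namespace Pool.Agent.MP_565a2b_an

noncomputable section

/-- coefficients of a functional -/
def aa (f : XX →L[ℝ] ℝ) (n : ℕ) : ℝ := f (ee n)

lemma aa_add (f g : XX →L[ℝ] ℝ) (n : ℕ) : aa (f + g) n = aa f n + aa g n := rfl
lemma aa_smul (t : ℝ) (f : XX →L[ℝ] ℝ) (n : ℕ) : aa (t • f) n = t * aa f n := rfl

lemma f_le (f : XX →L[ℝ] ℝ) (x : XX) (hx : sN x ≤ 1) : f x ≤ (102 / 100) * ‖f‖ := by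
  have h1 := f.le_opNorm x
  have h2 := norm_le_sN x
  have h3 := norm_nonneg f
  have h4 := le_abs_self (f x)
  rw [Real.norm_eq_abs] at h1
  nlinarith

lemma sum_bound (f : XX →L[ℝ] ℝ) (F : Finset ℕ) (v : ℂ) (hv : ‖v‖ ≤ 1) :
    f (em v) + ∑ i ∈ F, (|aa f i| - aa f i * (v * conj (th i)).re) ≤ (102 / 100) * ‖f‖ := by
  classical
  set s : ℕ → ℝ := fun i => if 0 ≤ aa f i then 1 else -1 with hs
  have hsa : ∀ i, s i * aa f i = |aa f i| := by
    intro i
    simp only [hs]
    split_ifs with h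
    · rw [one_mul, abs_of_nonneg h]
    · rw [abs_of_neg (not_le.mp h)]; ring
  have hs1 : ∀ i, |s i| ≤ 1 := by
    intro i
    simp only [hs]
    split_ifs <;> simp
  set z : XX := em v + ∑ i ∈ F, (s i - (v * conj (th i)).re) • ee i with hz
  have hfz : f z = f (em v) + ∑ i ∈ F, (|aa f i| - aa f i * (v * conj (th i)).re) := by
    rw [hz, map_add, map_sum]
    congr 1
    refine Finset.sum_congr rfl (fun i _ => ?_)
    rw [map_smul, smul_eq_mul, ← hsa i]
    show _ * aa f i = _
    ring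
  rw [← hfz]
  apply f_le
  refine sN_le (fun m => ?_)
  have hcz : cc m z = if m ∈ F then s m else (v * conj (th m)).re := by
    rw [hz, map_add, map_sum, cc_em]
    have : ∀ i ∈ F, cc m ((s i - (v * conj (th i)).re) • ee i)
        = if m = i then (s i - (v * conj (th i)).re) else 0 := by
      intro i _
      rw [map_smul, cc_ee]
      split_ifs <;> simp
    rw [Finset.sum_congr rfl this, Finset.sum_ite_eq]
    split_ifs
    · ring
    · ring
  rw [hcz]
  split_ifs
  · exact hs1 m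
  · exact (abs_re_mul_conj_le v (th m) (norm_th m)).trans hv

lemma summable_aa (f : XX →L[ℝ] ℝ) : Summable (fun i => |aa f i|) := by
  refine summable_of_sum_le (c := (102 / 100) * ‖f‖) (fun i => abs_nonneg _) (fun F => ?_)
  have := sum_bound f F 0 (by simp)
  simpa using this

/-- the `ℓ¹` part of the norm -/
def AA (f : XX →L[ℝ] ℝ) : ℝ := ∑' i, |aa f i|

lemma summable_aa_re (f : XX →L[ℝ] ℝ) (v : ℂ) :
    Summable (fun i => aa f i * (v * conj (th i)).re) := by
  refine Summable.of_norm_bounded ((summable_aa f).mul_right ‖v‖) (fun i => ?_)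
  rw [norm_mul, Real.norm_eq_abs, Real.norm_eq_abs]
  exact mul_le_mul_of_nonneg_left (abs_re_mul_conj_le v (th i) (norm_th i)) (abs_nonneg _)

/-- the singular part of a functional -/
def GG (f : XX →L[ℝ] ℝ) (v : ℂ) : ℝ := f (em v) - ∑' i, aa f i * (v * conj (th i)).re

lemma GG_add_right (f : XX →L[ℝ] ℝ) (v w : ℂ) : GG f (v + w) = GG f v + GG f w := by
  unfold GG
  rw [map_add, map_add]
  have : (fun i => aa f i * ((v + w) * conj (th i)).re)
      = fun i => aa f i * (v * conj (th i)).re + aa f i * (w * conj (th i)).re := by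
    ext i
    rw [add_mul, Complex.add_re]
    ring
  rw [this, (summable_aa_re f v).tsum_add (summable_aa_re f w)]
  ring

lemma GG_smul_right (f : XX →L[ℝ] ℝ) (t : ℝ) (v : ℂ) : GG f (t • v) = t * GG f v := by
  unfold GG
  rw [map_smul, map_smul, smul_eq_mul, mul_sub, ← tsum_mul_left]
  congr 2
  ext i
  rw [smul_mul_assoc, Complex.smul_re, smul_eq_mul]
  ring

lemma GG_add_left (f g : XX →L[ℝ] ℝ) (v : ℂ) : GG (f + g) v = GG f v + GG g v := by
  unfold GG
  have : (fun i => aa (f + g) i * (v * conj (th i)).re)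
      = fun i => aa f i * (v * conj (th i)).re + aa g i * (v * conj (th i)).re := by
    ext i
    rw [aa_add]
    ring
  rw [this, (summable_aa_re f v).tsum_add (summable_aa_re g v)]
  show f (em v) + g (em v) - _ = _
  ring

lemma GG_smul_left (t : ℝ) (f : XX →L[ℝ] ℝ) (v : ℂ) : GG (t • f) v = t * GG f v := by
  unfold GG
  rw [mul_sub, ← tsum_mul_left]
  show t * f (em v) - _ = _
  congr 2
  ext i
  rw [aa_smul]
  ring

lemma claimA (f : XX →L[ℝ] ℝ) (v : ℂ) (hv : ‖v‖ ≤ 1) : AA f + GG f v ≤ (102 / 100) * ‖f‖ := by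
  have h1 : HasSum (fun i => |aa f i| - aa f i * (v * conj (th i)).re)
      (AA f - ∑' i, aa f i * (v * conj (th i)).re) :=
    (summable_aa f).hasSum.sub (summable_aa_re f v).hasSum
  have h2 := hasSum_le_of_sum_le h1 (c := (102 / 100) * ‖f‖ - f (em v))
    (fun F => by have := sum_bound f F v hv; linarith)
  unfold GG
  linarith

lemma hasSum_c0 (y : C₀(ℕ, ℝ)) : HasSum (fun i => y i • ee i) (mkX y 0) := by
  classical
  have hy : Tendsto (fun n => y n) cofinite (𝓝 0) := by
    have := y.zero_at_infty'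
    rw [cocompact_eq_cofinite] at this
    exact this
  rw [HasSum, SummationFilter.unconditional_filter, Metric.tendsto_atTop]
  intro ε hε
  have h1 : ∀ᶠ n in cofinite, |y n| < ε / 2 := by
    have := (Metric.tendsto_nhds.mp hy) (ε / 2) (by positivity)
    simpa [Real.dist_eq] using this
  rw [eventually_cofinite] at h1
  refine ⟨h1.toFinset, fun F hF => ?_⟩
  rw [dist_eq_norm]
  refine lt_of_le_of_lt (norm_le_sN _) ?_
  have h2 : sN (∑ i ∈ F, y i • ee i - mkX y 0) ≤ ε / 2 := by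
    refine sN_le (fun m => ?_)
    have : cc m (∑ i ∈ F, y i • ee i - mkX y 0) = if m ∈ F then 0 else - y m := by
      rw [map_sub, map_sum, cc_mk]
      have : ∀ i ∈ F, cc m (y i • ee i) = if m = i then y i else 0 := by
        intro i _
        rw [map_smul, cc_ee]
        split_ifs <;> simp
      rw [Finset.sum_congr rfl this, Finset.sum_ite_eq]
      split_ifs <;> simp
    rw [this]
    split_ifs with h
    · rw [abs_zero]; positivity
    · rw [abs_neg]
      by_contra hcon
      push Not at hcon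
      exact h (hF (by simpa using hcon.le))
  linarith

lemma hasSum_cc (f : XX →L[ℝ] ℝ) (x : XX) :
    HasSum (fun i => aa f i * cc i x) (f x - GG f x.2) := by
  have h1 : HasSum (fun i => f (x.1 i • ee i)) (f (mkX x.1 0)) := f.hasSum (hasSum_c0 x.1)
  have h2 := (summable_aa_re f x.2).hasSum
  have h3 := h1.add h2
  have e1 : f x = f (mkX x.1 0) + f (em x.2) := by
    rw [← map_add]
    congr 1
    exact Prod.ext (by show x.1 = x.1 + 0; rw [add_zero]) (by show x.2 = 0 + x.2; rw [zero_add])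
  have e2 : f x - GG f x.2 = f (mkX x.1 0) + ∑' i, aa f i * (x.2 * conj (th i)).re := by
    rw [e1]
    unfold GG
    ring
  rw [e2]
  convert h3 using 1
  ext i
  rw [map_smul, smul_eq_mul, cc_apply]
  show f (ee i) * _ = _ * f (ee i) + f (ee i) * _
  ring

lemma claimB (f : XX →L[ℝ] ℝ) (x : XX) : |f x - GG f x.2| ≤ AA f * sN x := by
  rw [← (hasSum_cc f x).tsum_eq]
  have h1 : Summable (fun i => |aa f i| * sN x) := (summable_aa f).mul_right _
  have h2 : ∀ i, ‖aa f i * cc i x‖ ≤ |aa f i| * sN x := by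
    intro i
    rw [norm_mul, Real.norm_eq_abs, Real.norm_eq_abs]
    exact mul_le_mul_of_nonneg_left (cc_le_sN i x) (abs_nonneg _)
  have h3 := tsum_of_norm_bounded h1.hasSum h2
  rw [Real.norm_eq_abs, tsum_mul_right] at h3
  exact h3

/-- the vector representing the singular part -/
def wf (f : XX →L[ℝ] ℝ) : ℂ := ⟨GG f 1, GG f Complex.I⟩

lemma GG_eq (f : XX →L[ℝ] ℝ) (v : ℂ) : GG f v = (v * conj (wf f)).re := by
  have h : v = v.re • (1 : ℂ) + v.im • Complex.I := by
    apply Complex.ext <;> simp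
  conv_lhs => rw [h, GG_add_right, GG_smul_right, GG_smul_right]
  simp [wf]

lemma norm_wf (f : XX →L[ℝ] ℝ) : ‖wf f‖ ≤ (102 / 100) * ‖f‖ - AA f := by
  by_cases h : wf f = 0
  · have := claimA f 0 (by simp)
    rw [GG_eq] at this
    rw [h, norm_zero]
    simp at this
    linarith
  · have hpos : 0 < ‖wf f‖ := norm_pos_iff.mpr h
    have h1 := claimA f ((‖wf f‖)⁻¹ • wf f) (by
      rw [norm_smul, norm_inv, norm_norm, inv_mul_cancel₀ hpos.ne'])
    rw [GG_smul_right, GG_eq, Complex.mul_conj, Complex.ofReal_re, Complex.normSq_eq_norm_sq] at h1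
    have : (‖wf f‖)⁻¹ * ‖wf f‖ ^ 2 = ‖wf f‖ := by
      field_simp
    rw [this] at h1
    linarith

/-- the functionals vanishing on `c₀` -/
def HH (w : ℂ) : XX →L[ℝ] ℝ :=
  LinearMap.mkContinuous
    { toFun := fun x : XX => (x.2 * conj w).re
      map_add' := fun x y => by
        show ((x.2 + y.2) * conj w).re = _
        rw [add_mul, Complex.add_re]
      map_smul' := fun t x => by
        show ((t • x.2) * conj w).re = t * _
        rw [smul_mul_assoc, Complex.smul_re, smul_eq_mul] } ‖w‖ (fun x => by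
      show ‖(x.2 * conj w).re‖ ≤ ‖w‖ * ‖x‖
      rw [Real.norm_eq_abs]
      refine (Complex.abs_re_le_norm _).trans ?_
      rw [norm_mul, RCLike.norm_conj, mul_comm]
      exact mul_le_mul_of_nonneg_left ((snd_le_sN x).trans (sN_le_norm x)) (norm_nonneg _))

lemma HH_apply (w : ℂ) (x : XX) : HH w x = (x.2 * conj w).re := rfl

lemma norm_HH (w : ℂ) : ‖HH w‖ ≤ ‖w‖ := LinearMap.mkContinuous_norm_le _ (norm_nonneg _) _

lemma HH_comb (α β : ℝ) (v w : ℂ) : HH (α • v + β • w) = α • HH v + β • HH w := by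
  ext x
  show (x.2 * conj (α • v + β • w)).re = α * (x.2 * conj v).re + β * (x.2 * conj w).re
  simp
  ring

/-- the bilinear form defining the operator -/
def BB : (XX →L[ℝ] ℝ) →ₗ[ℝ] XX →ₗ[ℝ] ℝ :=
  LinearMap.mk₂ ℝ (fun f x => GG f (Complex.I * x.2))
    (fun f g x => GG_add_left f g _)
    (fun t f x => GG_smul_left t f _)
    (fun f x y => by
      show GG f (Complex.I * (x.2 + y.2)) = _
      rw [mul_add, GG_add_right])
    (fun t f x => by
      show GG f (Complex.I * (t • x.2)) = t * _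
      rw [mul_smul_comm, GG_smul_right])

lemma BB_bound (f : XX →L[ℝ] ℝ) (x : XX) : ‖BB f x‖ ≤ (102 / 100) * ‖f‖ * ‖x‖ := by
  show ‖GG f (Complex.I * x.2)‖ ≤ _
  rw [GG_eq, Real.norm_eq_abs]
  refine (Complex.abs_re_le_norm _).trans ?_
  rw [norm_mul, norm_mul, RCLike.norm_conj, Complex.norm_I, one_mul]
  have h1 := norm_wf f
  have h2 : 0 ≤ AA f := tsum_nonneg (fun i => abs_nonneg _)
  have h3 := (snd_le_sN x).trans (sN_le_norm x)
  have h4 := norm_nonneg (wf f)
  have h5 := norm_nonneg x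
  have h6 := norm_nonneg x.2
  calc ‖x.2‖ * ‖wf f‖ ≤ ‖x‖ * ((102 / 100) * ‖f‖) := by
        apply mul_le_mul h3 (by linarith) h4 h5
    _ = (102 / 100) * ‖f‖ * ‖x‖ := by ring

/-- the operator on the dual with small numerical radius -/
def SS : (XX →L[ℝ] ℝ) →L[ℝ] (XX →L[ℝ] ℝ) := LinearMap.mkContinuous₂ BB (102 / 100) BB_bound

lemma SS_apply (f : XX →L[ℝ] ℝ) (x : XX) : SS f x = GG f (Complex.I * x.2) := rfl

lemma SS_eq (f : XX →L[ℝ] ℝ) : SS f = HH (-(Complex.I * wf f)) := by
  ext x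
  rw [SS_apply, HH_apply, GG_eq]
  congr 1
  simp
  ring

lemma norm_SS : 1 ≤ (102 / 100) * ‖SS‖ := by
  have h1 : SS (HH 1) (em (-Complex.I)) = 1 := by
    rw [SS_apply]
    have e1 : Complex.I * (em (-Complex.I)).2 = 1 := by
      show Complex.I * (-Complex.I) = 1
      simp
    rw [e1]
    unfold GG
    have e2 : ∀ i, aa (HH 1) i = 0 := by
      intro i
      show ((ee i).2 * conj (1 : ℂ)).re = 0
      show ((0 : ℂ) * conj (1 : ℂ)).re = 0
      simp
    simp only [e2, zero_mul, tsum_zero, sub_zero]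
    show ((1 : ℂ) * conj (1 : ℂ)).re = 1
    simp
  have h2 : ‖em (-Complex.I)‖ ≤ 102 / 100 := by
    refine (norm_le_sN _).trans ?_
    have : sN (em (-Complex.I)) ≤ 1 := by
      refine sN_le (fun m => ?_)
      rw [cc_em]
      refine (abs_re_mul_conj_le _ _ (norm_th m)).trans ?_
      simp
    linarith
  have h3 := (SS (HH 1)).le_opNorm (em (-Complex.I))
  have h4 := SS.le_opNorm (HH 1)
  have h5 := norm_HH 1
  rw [h1] at h3
  simp only [norm_one] at h3 h5
  have h6 := norm_nonneg (SS (HH 1))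
  have h7 := norm_nonneg SS
  have h8 : ‖SS (HH 1)‖ ≤ ‖SS‖ := by nlinarith
  nlinarith

theorem upper (f : XX →L[ℝ] ℝ) (F : (XX →L[ℝ] ℝ) →L[ℝ] ℝ) (hf : ‖f‖ = 1) (hF : ‖F‖ = 1)
    (hFf : F f = 1) : |F (SS f)| ≤ 203 / 1000 := by
  set w := wf f with hw
  have hFle : ∀ g : XX →L[ℝ] ℝ, F g ≤ ‖g‖ := by
    intro g
    have := F.le_opNorm g
    rw [hF, one_mul] at this
    exact (le_abs_self _).trans this
  have h1 : ‖f - HH w‖ ≤ AA f := by
    refine ContinuousLinearMap.opNorm_le_bound _ (tsum_nonneg (fun i => abs_nonneg _)) (fun x => ?_)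
    show ‖f x - HH w x‖ ≤ _
    rw [HH_apply, hw, ← GG_eq, Real.norm_eq_abs]
    refine (claimB f x).trans ?_
    exact mul_le_mul_of_nonneg_left (sN_le_norm x) (tsum_nonneg (fun i => abs_nonneg _))
  have h2 : ‖w‖ ≤ 102 / 100 - AA f := by
    have := norm_wf f
    rw [hf, mul_one] at this
    exact this
  set α := F (HH w) with hα
  set β := F (HH (-(Complex.I * w))) with hβ
  have h3 : ‖w‖ - 2 / 100 ≤ α := by
    have e : F f = F (f - HH w) + F (HH w) := by rw [← map_add]; congr 1; abel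
    have := hFle (f - HH w)
    rw [hFf] at e
    linarith
  have h4 : α ^ 2 + β ^ 2 ≤ ‖w‖ ^ 2 := by
    have e1 : F (HH (α • w + β • (-(Complex.I * w)))) = α ^ 2 + β ^ 2 := by
      rw [HH_comb, map_add, map_smul, map_smul, ← hα, ← hβ]
      simp only [smul_eq_mul]
      ring
    have e2 : ‖α • w + β • (-(Complex.I * w))‖ ^ 2 = (α ^ 2 + β ^ 2) * ‖w‖ ^ 2 := by
      have : α • w + β • (-(Complex.I * w)) = (⟨α, -β⟩ : ℂ) * w := by
        apply Complex.ext <;> simp
      rw [this, norm_mul, mul_pow]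
      congr 1
      rw [← Complex.normSq_eq_norm_sq, Complex.normSq_mk]
      ring
    have e3 := (hFle (HH (α • w + β • (-(Complex.I * w))))).trans (norm_HH _)
    rw [e1] at e3
    have e4 : (α ^ 2 + β ^ 2) ^ 2 ≤ (α ^ 2 + β ^ 2) * ‖w‖ ^ 2 := by
      rw [← e2]
      exact pow_le_pow_left₀ (by positivity) e3 2
    by_contra hcon
    push Not at hcon
    have e5 : 0 ≤ ‖w‖ ^ 2 := by positivity
    nlinarith
  have hw0 := norm_nonneg w
  have hA : 0 ≤ AA f := tsum_nonneg (fun i => abs_nonneg _)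
  rw [SS_eq, ← hw, ← hβ]
  apply abs_le_of_sq_le_sq _ (by norm_num)
  by_cases hc : ‖w‖ ≤ 2 / 100
  · nlinarith [sq_nonneg α]
  · push Not at hc
    have : (‖w‖ - 2 / 100) ^ 2 ≤ α ^ 2 := pow_le_pow_left₀ (by linarith) h3 2
    nlinarith

end

end Pool.Agent.MP_565a2b_an
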